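import Pool.Agent.Lib.MP_3db736_an.Invariance

open MeasureTheory Metric Set Module
open scoped ENNReal ContDiff

namespace Pool.Agent.Results.MP_3db736_an.HopfBound

/-- Euclidean space `ℝ^m`. -/
abbrev E (m : ℕ) : Type := EuclideanSpace ℝ (Fin m)

/-- The unit sphere `𝕊^{m-1}` of `ℝ^m`. -/
abbrev S (m : ℕ) : Type := sphere (0 : E m) 1

/-- The surface measure of the unit sphere `𝕊^{m-1}` of `ℝ^m`. -/
noncomputable def surf (m : ℕ) : Measure (S m) := (volume : Measure (E m)).toSphere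

/-- The surface area `|𝕊^n|` of the unit sphere of `ℝ^{n+1}`. -/
noncomputable def area (n : ℕ) : ℝ := (surf (n + 1)).real univ

/-- Continuous maps from `𝕊^{2n-1}` to `𝕊^n`. -/
abbrev Map (n : ℕ) : Type := C(S (n + n), S (n + 1))

/-- The value of a map, as a vector of `ℝ^{n+1}`. -/
noncomputable def Map.val {n : ℕ} (f : Map n) (x : S (n + n)) : E (n + 1) := (f x : E (n + 1))

/-- The chordal distance of two points of the sphere. -/
noncomputable def chord {m : ℕ} (x y : S m) : ℝ := ‖(x : E m) - (y : E m)‖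

/-- The integrand of the energy, `d(f(y), f(x))^p / |y - x|^{2(2n-1)}`, where `d` is the geodesic
distance of `𝕊^n` (the angle). -/
noncomputable def density (n : ℕ) (p : ℝ) (f : Map n) (x y : S (n + n)) : ℝ :=
  InnerProductGeometry.angle (f.val y) (f.val x) ^ p / chord y x ^ (2 * (2 * n - 1))

/-- The fractional Sobolev energy `E_p(f)` of `f : 𝕊^{2n-1} → 𝕊^n`. -/
noncomputable def energy (n : ℕ) (p : ℝ) (f : Map n) : ℝ≥0∞ :=
  ∫⁻ x, ∫⁻ y, ENNReal.ofReal (density n p f x y) ∂(surf (n + n)) ∂(surf (n + n))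

/-- Alternating `n`-linear forms on `ℝ^{2n}`. -/
abbrev Cov (n : ℕ) : Type := E (n + n) [⋀^Fin n]→L[ℝ] ℝ

/-- The value of an alternating form. -/
noncomputable def Cov.ev {n : ℕ} (α : Cov n) (v : Fin n → E (n + n)) : ℝ := α v

/-- The standard basis of `ℝ^m`. -/
noncomputable def bas {m : ℕ} (i : Fin m) : E m := EuclideanSpace.single i (1 : ℝ)

/-- The coefficient of the `2n`-form `α ∧ β` on `ℝ^{2n}`, i.e. `(α ∧ β)(e_1, …, e_{2n})`. -/
noncomputable def wedge {n : ℕ} (α β : Cov n) : ℝ :=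
  ((n.factorial * n.factorial : ℕ) : ℝ)⁻¹ * ∑ σ : Equiv.Perm (Fin (n + n)),
    ((Equiv.Perm.sign σ : ℤ) : ℝ) *
      (α.ev (fun i => bas (σ (Fin.castAdd n i))) * β.ev (fun i => bas (σ (Fin.natAdd n i))))

/-- The volume form of the unit sphere `𝕊^n` at `y`, evaluated at `w_1, …, w_n`:
`det (y, w_1, …, w_n)`. -/
noncomputable def volSphere {n : ℕ} (y : E (n + 1)) (w : Fin n → E (n + 1)) : ℝ :=
  Matrix.det (fun i j : Fin (n + 1) => (Matrix.vecCons y w : Fin (n + 1) → E (n + 1)) i j)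

/-- `g` is a smooth map from the neighbourhood `U` of `𝕊^{2n-1}` to `𝕊^n`. -/
def SmoothNear (n : ℕ) (U : Set (E (n + n))) (g : E (n + n) → E (n + 1)) : Prop :=
  IsOpen U ∧ sphere 0 1 ⊆ U ∧ ContDiffOn ℝ ∞ g U ∧ ∀ x ∈ U, ‖g x‖ = 1

/-- The restriction of `g` to `𝕊^{2n-1}` is homotopic to `f`. -/
def Represents (n : ℕ) (f : Map n) (g : E (n + n) → E (n + 1)) : Prop :=
  ∃ f' : Map n, (∀ x : S (n + n), f'.val x = g x) ∧ f.Homotopic f'

/-- `Om` is continuously differentiable on `V`. -/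
def IsC1 (n : ℕ) (Om : E (n + n) → Cov n) (V : Set (E (n + n))) : Prop := ContDiffOn ℝ 1 Om V

/-- The exterior derivative `d Om` at the point `x`, evaluated at `n + 1` vectors. -/
noncomputable def extD (n : ℕ) (Om : E (n + n) → Cov n) (x : E (n + n))
    (v : Fin (n + 1) → E (n + n)) : ℝ := extDeriv Om x v

/-- `Om` is a closed `C^1` form of degree `n` on a ball of radius larger than one. -/
def ClosedNear (n : ℕ) (Om : E (n + n) → Cov n) : Prop :=
  ∃ R : ℝ, 1 < R ∧ IsC1 n Om (ball 0 R) ∧ ∀ x ∈ ball (0 : E (n + n)) R, ∀ v, extD n Om x v = 0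

/-- The differential of `g` at `x` in the direction `v`. -/
noncomputable def diff {a b : ℕ} (g : E a → E b) (x v : E a) : E b := fderiv ℝ g x v

/-- At the points of `𝕊^{2n-1}`, `Om` is the pull back by `g` of the volume form of `𝕊^n`. -/
def PullsBack (n : ℕ) (g : E (n + n) → E (n + 1)) (Om : E (n + n) → Cov n) : Prop :=
  ∀ x, ‖x‖ = 1 → ∀ v : Fin n → E (n + n),
    (Om x).ev v = volSphere (g x) (fun i => diff g x (v i))

/-- The integral of `Om ∧ Om` over the unit ball of `ℝ^{2n}`. -/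
noncomputable def whitehead (n : ℕ) (Om : E (n + n) → Cov n) : ℝ :=
  ∫ x in ball (0 : E (n + n)) 1, wedge (Om x) (Om x)

/-- `k` is the Hopf invariant of the continuous map `f : 𝕊^{2n-1} → 𝕊^n`, defined by Whitehead's
integral formula: for some smooth map `g` from a neighbourhood of `𝕊^{2n-1}` to `𝕊^n` whose
restriction to `𝕊^{2n-1}` is homotopic to `f`, and some closed `C^1` form `Om` of degree `n` near
the closed unit ball of `ℝ^{2n}` which equals `g^* vol` at the points of `𝕊^{2n-1}`, the integral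
of `Om ∧ Om` over the unit ball is `|𝕊^n|^2 k`. By `existsUnique_hopfInvariant` below, every
continuous `f` has exactly one such `k`, whatever `g` and `Om` are chosen. -/
def IsHopfInvariant (n : ℕ) (f : Map n) (k : ℝ) : Prop :=
  ∃ (U : Set (E (n + n))) (g : E (n + n) → E (n + 1)) (Om : E (n + n) → Cov n),
    SmoothNear n U g ∧ Represents n f g ∧ ClosedNear n Om ∧ PullsBack n g Om ∧
      area n ^ 2 * k = whitehead n Om

theorem nontrivial_E {m : ℕ} (hm : 1 ≤ m) : Nontrivial (E m) := by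
  apply Module.nontrivial_of_finrank_pos (R := ℝ)
  rw [finrank_euclideanSpace, Fintype.card_fin]
  exact hm

theorem area_pos (n : ℕ) : 0 < area n := by
  have : Nontrivial (E (n + 1)) := nontrivial_E (by omega)
  unfold area surf
  rw [Measure.toSphere_real_apply_univ, finrank_euclideanSpace, Fintype.card_fin]
  have h2 : 0 < (volume : Measure (E (n + 1))).real (ball 0 1) := by
    apply ENNReal.toReal_pos
    · exact (measure_ball_pos _ 0 one_pos).ne'
    · exact measure_ball_lt_top.ne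
  positivity

theorem line_ne_zero {G : Type*} [NormedAddCommGroup G] [NormedSpace ℝ G] {a b : G}
    (ha : ‖a‖ = 1) (hab : ‖b - a‖ ≤ 1 / 2) {t : ℝ} (h0 : 0 ≤ t) (h1 : t ≤ 1) :
    a + t • (b - a) ≠ 0 := by
  intro h
  have h2 : a = -(t • (b - a)) := eq_neg_of_add_eq_zero_left h
  have h3 : ‖a‖ ≤ 1 / 2 := by
    rw [h2, norm_neg, norm_smul, Real.norm_eq_abs, abs_of_nonneg h0]
    nlinarith [norm_nonneg (b - a)]
  rw [ha] at h3
  norm_num at h3

/-- Two maps to the sphere which are close to each other are homotopic. -/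
theorem homotopic_of_close {X : Type*} [TopologicalSpace X] {m : ℕ} (f g : C(X, S m))
    (h : ∀ x, ‖(g x : E m) - f x‖ ≤ 1 / 2) : f.Homotopic g := by
  have hf1 : ∀ x, ‖(f x : E m)‖ = 1 := fun x => by simp
  have hg1 : ∀ x, ‖(g x : E m)‖ = 1 := fun x => by simp
  set L : unitInterval × X → E m := fun q => (f q.2 : E m) + (q.1 : ℝ) • ((g q.2 : E m) - f q.2)
    with hL
  have hL0 : ∀ q, L q ≠ 0 := fun q => line_ne_zero (hf1 q.2) (h q.2) q.1.2.1 q.1.2.2
  have hLc : Continuous L := by rw [hL]; fun_prop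
  refine ⟨⟨⟨fun q => ⟨‖L q‖⁻¹ • L q, ?_⟩, ?_⟩, ?_, ?_⟩⟩
  · rw [mem_sphere_zero_iff_norm, norm_smul, norm_inv, norm_norm,
      inv_mul_cancel₀ (norm_ne_zero_iff.2 (hL0 q))]
  · apply Continuous.subtype_mk
    exact (hLc.norm.inv₀ (fun q => norm_ne_zero_iff.2 (hL0 q))).smul hLc
  · intro x
    ext1
    change ‖L (0, x)‖⁻¹ • L (0, x) = (f x : E m)
    have : L (0, x) = f x := by rw [hL]; simp
    rw [this, hf1, inv_one, one_smul]
  · intro x
    ext1
    change ‖L (1, x)‖⁻¹ • L (1, x) = (g x : E m)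
    have : L (1, x) = g x := by rw [hL]; simp
    rw [this, hg1, inv_one, one_smul]

theorem dist_le_angle {m : ℕ} (a b : S m) :
    dist a b ≤ InnerProductGeometry.angle (a : E m) (b : E m) := by
  have ha : ‖(a : E m)‖ = 1 := by simp
  have hb : ‖(b : E m)‖ = 1 := by simp
  set θ := InnerProductGeometry.angle (a : E m) (b : E m) with hθ
  have h0 : 0 ≤ θ := InnerProductGeometry.angle_nonneg _ _
  have h1 : inner ℝ (a : E m) (b : E m) = Real.cos θ := by
    rw [hθ, InnerProductGeometry.cos_angle, ha, hb]; simp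
  have h2 : dist a b ^ 2 = 2 - 2 * Real.cos θ := by
    rw [Subtype.dist_eq, dist_eq_norm, norm_sub_sq_real, ha, hb, h1]; ring
  have h3 := Real.one_sub_sq_div_two_le_cos (x := θ)
  apply abs_le_of_sq_le_sq' _ h0 |>.2
  nlinarith

theorem lower_energy_le (n : ℕ) {p : ℝ} (hp : 0 < p) (f : Map n) :
    ∫⁻ ζ, Lib.MP_3db736_an.eng volume (fun ζ => (f ζ : E (n + 1))) p (2 * n - 1) ζ
      ∂(surf (n + n)) ≤ energy n p f := by
  unfold energy density Lib.MP_3db736_an.eng
  apply lintegral_mono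
  intro x
  apply lintegral_mono
  intro y
  apply ENNReal.ofReal_le_ofReal
  have h1 : dist y x = chord y x := by
    rw [Subtype.dist_eq, dist_eq_norm]; rfl
  rw [h1]
  have h2 : 0 ≤ chord y x := norm_nonneg _
  gcongr
  exact dist_le_angle (f y) (f x)

/-- The data of the definition give a Whitehead integral in the sense of the library. -/
theorem app_of_data {n : ℕ} {U : Set (E (n + n))} {g : E (n + n) → E (n + 1)}
    {Om : E (n + n) → Cov n} (hg : SmoothNear n U g) {f' : Map n}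
    (hf' : ∀ x : S (n + n), f'.val x = g x) (hO : ClosedNear n Om) (hb : PullsBack n g Om) :
    Lib.MP_3db736_an.App n (fun ζ => (f' ζ : E (n + 1))) (whitehead n Om) := by
  obtain ⟨R, hR, hO1, hcl⟩ := hO
  refine ⟨R, U, g, Om, hR, hg.1, hg.2.1, hg.2.2.1, hg.2.2.2, fun ζ => ?_, hO1, fun x hx => ?_,
    hb, rfl⟩
  · have h1 : (f' ζ : E (n + 1)) = g ζ := hf' ζ
    simp only [h1]
    rw [sub_self, norm_zero]
    norm_num
  · ext v
    exact hcl x hx v

theorem exists_map {n : ℕ} {U : Set (E (n + n))} {g : E (n + n) → E (n + 1)}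
    (hg : SmoothNear n U g) : ∃ f' : Map n, ∀ x, f'.val x = g x := by
  have hgc : Continuous (fun ζ : S (n + n) => g ζ) :=
    (hg.2.2.1.continuousOn.mono hg.2.1).comp_continuous continuous_subtype_val (fun ζ => ζ.2)
  have h2 : ∀ ζ : S (n + n), g ζ ∈ sphere (0 : E (n + 1)) 1 := fun ζ => by
    rw [mem_sphere_zero_iff_norm]; exact hg.2.2.2 _ (hg.2.1 ζ.2)
  exact ⟨⟨fun ζ => ⟨g ζ, h2 ζ⟩, hgc.subtype_mk h2⟩, fun ζ => rfl⟩

/-- Every continuous map has exactly one Hopf invariant in the sense of `IsHopfInvariant`: the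
integral does not depend on the choices of `g` and `Om`. -/
theorem existsUnique_hopfInvariant (n : ℕ) (hn : 2 ≤ n) (f : Map n) :
    ∃! k : ℝ, IsHopfInvariant n f k := by
  have hs := area_pos n
  have key : ∀ k, IsHopfInvariant n f k → ∀ I, Lib.MP_3db736_an.App n
      (fun ζ => (f ζ : E (n + 1))) I → area n ^ 2 * k = I := by
    rintro k ⟨U, g, Om, hg, ⟨f', hf', hhom⟩, hO, hb, hval⟩ I hI
    rw [hval]
    exact (Lib.MP_3db736_an.app_homotopic hn hhom hI (app_of_data hg hf' hO hb)).symm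
  obtain ⟨I, hI⟩ := Lib.MP_3db736_an.exists_app hn (f := fun ζ => (f ζ : E (n + 1)))
    (by fun_prop) (fun ζ => by simp)
  refine ⟨I / area n ^ 2, ?_, fun k hk => ?_⟩
  · obtain ⟨R, U, g, Om, hR, hU, hUs, hg, hg1, hc, hO, hcl, hbd, hIv⟩ := hI
    have hsm : SmoothNear n U g := ⟨hU, hUs, hg, hg1⟩
    obtain ⟨f', hf'⟩ := exists_map hsm
    refine ⟨U, g, Om, hsm, ⟨f', hf', homotopic_of_close f f' fun ζ => ?_⟩,
      ⟨R, hR, hO, fun x hx v => ?_⟩, hbd, ?_⟩
    · have h1 : (f' ζ : E (n + 1)) = g ζ := hf' ζ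
      rw [h1]
      exact hc ζ
    · have h2 := hcl x hx
      unfold extD
      rw [h2]
      rfl
    · rw [mul_div_cancel₀ _ (by positivity)]
      exact hIv
  · rw [eq_div_iff (by positivity), mul_comm]
    exact key k hk I hI

/-- **The bound of the Hopf invariant.** For every `n ≥ 2` and `p > 2n - 1` there is a constant
`C` with `|deg_H f| ≤ C E_p(f)^{1 + 1/(2n-1)}` for all continuous `f : 𝕊^{2n-1} → 𝕊^n` with finite
energy. -/
theorem result (n : ℕ) (hn : 2 ≤ n) (p : ℝ) (hp : 2 * (n : ℝ) - 1 < p) :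
    ∃ C : ℝ, ∀ (f : Map n) (k : ℝ), IsHopfInvariant n f k → energy n p f ≠ ⊤ →
      |k| ≤ C * (energy n p f).toReal ^ (1 + 1 / (2 * (n : ℝ) - 1)) := by
  have : Nontrivial (EuclideanSpace ℝ (Fin (n + n))) := nontrivial_E (by omega)
  have hn1 : (2 : ℝ) ≤ n := by exact_mod_cast hn
  have hp0 : 0 < p := by linarith
  obtain ⟨C, hC, hmain⟩ := Lib.MP_3db736_an.exists_good_form n hn hp0
  have hs := area_pos n
  refine ⟨C.toReal / area n ^ 2, ?_⟩
  rintro f k ⟨U, g, Om, hg, ⟨f', hf', hhom⟩, hO, hb, hval⟩ hE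
  obtain ⟨R₁, U₁, g₁, Om₁, hR₁, hU₁, hUs₁, hg₁, hg1₁, hclose₁, hOm₁, hcl₁, hbd₁, hint₁⟩ :=
    hmain (fun ζ => (f ζ : E (n + 1))) (by fun_prop) (fun ζ => by simp)
  have happ : Lib.MP_3db736_an.App n (fun ζ => (f ζ : E (n + 1))) _ :=
    ⟨R₁, U₁, g₁, Om₁, hR₁, hU₁, hUs₁, hg₁, hg1₁, hclose₁, hOm₁, hcl₁, hbd₁, rfl⟩
  have heq := Lib.MP_3db736_an.app_homotopic hn hhom happ (app_of_data hg hf' hO hb)
  rw [heq, ← hval] at hint₁
  set s := area n with hsdef
  have hint2 : ‖s ^ 2 * k‖ₑ ≤ C * ((energy n p f) ^ ((1 : ℝ) / (2 * n - 1 : ℕ)) *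
      energy n p f) := by
    refine hint₁.trans ?_
    have hle := lower_energy_le n hp0 f
    have h2 : (0 : ℝ) ≤ (1 : ℝ) / (2 * n - 1 : ℕ) := by positivity
    exact mul_le_mul' le_rfl (mul_le_mul' (ENNReal.rpow_le_rpow hle h2) hle)
  have hcast : ((2 * n - 1 : ℕ) : ℝ) = 2 * (n : ℝ) - 1 := by
    rw [Nat.cast_sub (by omega)]; push_cast; ring
  have h3 := ENNReal.toReal_mono (by
    refine ENNReal.mul_ne_top hC (ENNReal.mul_ne_top ?_ hE)
    exact ENNReal.rpow_ne_top_of_nonneg (by positivity) hE) hint2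
  rw [toReal_enorm, Real.norm_eq_abs, abs_mul, abs_of_pos (by positivity : 0 < s ^ 2),
    ENNReal.toReal_mul, ENNReal.toReal_mul, ← ENNReal.toReal_rpow, hcast] at h3
  set e := (energy n p f).toReal with he
  have he0 : 0 ≤ e := ENNReal.toReal_nonneg
  have h4 : e ^ ((1 : ℝ) / (2 * (n : ℝ) - 1)) * e = e ^ (1 + 1 / (2 * (n : ℝ) - 1)) := by
    have h5 : (0 : ℝ) < 1 / (2 * (n : ℝ) - 1) := by
      apply div_pos one_pos; linarith
    rw [Real.rpow_add_of_nonneg he0 zero_le_one h5.le, Real.rpow_one, mul_comm]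
  rw [h4] at h3
  rw [div_mul_eq_mul_div, le_div_iff₀ (by positivity), mul_comm]
  exact h3

end Pool.Agent.Results.MP_3db736_an.HopfBound
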